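import Pool.Agent.Helper1.KU.Mach

/-!
# Building and using the pointer structure (piece C of `MP_538d4f_lc`)
-/

namespace Pool.Agent.Helper19.KU

open Pool.Agent.Helper1.KU

/-! ## Building an arbitrary structure -/

theorem cmds_append (s : AMem) (u v : List Cmd) : s.cmds (u ++ v) = (s.cmds u).cmds v := by
  simp [AMem.cmds]

theorem cmds_cons (s : AMem) (g : Cmd) (v : List Cmd) : s.cmds (g :: v) = (s.cmd g).cmds v := by
  simp [AMem.cmds]

theorem cmds_nil (s : AMem) : s.cmds [] = s := rfl

/-- The chain of `N` vertices. -/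
theorem chain_A (N : ℕ) :
    (AMem.init.cmds (List.replicate N Cmd.A)).size = N + 1 ∧
    (AMem.init.cmds (List.replicate N Cmd.A)).ptr 0 2 = N ∧
    ∀ t, 1 ≤ t → t ≤ N → ∀ a, (AMem.init.cmds (List.replicate N Cmd.A)).ptr t a = t - 1 := by
  induction N with
  | zero =>
    refine ⟨rfl, rfl, ?_⟩
    intro t h1 h2
    omega
  | succ N ih =>
    obtain ⟨h1, h2, h3⟩ := ih
    rw [List.replicate_succ', cmds_append]
    set m := AMem.init.cmds (List.replicate N Cmd.A) with hm
    have hc : m.cmds [Cmd.A] = m.cmd Cmd.A := rfl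
    rw [hc]
    refine ⟨?_, ?_, ?_⟩
    · simp [AMem.cmd, AMem.set, h1]
    · simp [AMem.cmd, AMem.set, h1]
    · intro t ht1 ht2 a
      have ht0 : t ≠ 0 := by omega
      by_cases htN : t = N + 1
      · subst htN
        simp [AMem.cmd, AMem.set, h1, h2]
      · have : t ≠ m.size := by omega
        simp only [AMem.cmd, AMem.set]
        rw [Function.update_of_ne ht0, Function.update_of_ne this]
        exact h3 t ht1 (by omega) a

/-- The chain pointers. -/
structure Chain (N : ℕ) (m : AMem) : Prop where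
  top : m.ptr 0 2 = N
  two : ∀ t, 1 ≤ t → t ≤ N → m.ptr t 2 = t - 1

/-- Walking down the chain. -/
theorem walk_N (N : ℕ) (m : AMem) (hm : Chain N m) (i : ℕ) (hi : i < N) :
    m.cmds (Cmd.H :: List.replicate i Cmd.N) = m.set 0 0 (N - i) := by
  induction i with
  | zero =>
    simp [AMem.cmds, AMem.cmd, hm.top]
  | succ i ih =>
    rw [List.replicate_succ', ← List.cons_append, cmds_append, ih (by omega)]
    have hc : (m.set 0 0 (N - i)).cmds [Cmd.N] = (m.set 0 0 (N - i)).cmd Cmd.N := rfl
    rw [hc]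
    have h1 : (m.set 0 0 (N - i)).ptr 0 0 = N - i := by simp [AMem.set]
    have h2 : (m.set 0 0 (N - i)).ptr (N - i) 2 = N - i - 1 := by
      have : N - i ≠ 0 := by omega
      simp only [AMem.set]
      rw [Function.update_of_ne this]
      exact hm.two _ (by omega) (by omega)
    simp only [AMem.cmd, h1, h2]
    simp only [AMem.set, Function.update_self, Function.update_idem]
    rfl

/-- The letter for a bit. -/
def let2 (b : Bool) : Fin 3 := if b then 1 else 0

/-- The set command for a bit. -/
def setB (b : Bool) : Cmd := if b then .S1 else .S0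

/-- The word that redirects the pointer `b` of the vertex `s + 1` to the vertex `t + 1`. -/
def assign (N s : ℕ) (b : Bool) (t : ℕ) : List Cmd :=
  (Cmd.H :: List.replicate (N - 1 - t) Cmd.N) ++ ([Cmd.K] ++
    ((Cmd.H :: List.replicate (N - 1 - s) Cmd.N) ++ [setB b]))

theorem length_assign (N s : ℕ) (b : Bool) (t : ℕ) :
    (assign N s b t).length ≤ 2 * N + 4 := by
  simp [assign]
  omega

theorem cmds_assign (N s : ℕ) (b : Bool) (t : ℕ) (m : AMem) (hm : Chain N m) (hs : s < N)
    (ht : t < N) :
    m.cmds (assign N s b t) =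
      (((m.set 0 0 (t + 1)).set 0 1 (t + 1)).set 0 0 (s + 1)).set (s + 1) (let2 b) (t + 1) := by
  unfold assign
  rw [cmds_append, walk_N N m hm _ (by omega), cmds_append, cmds_append]
  have e1 : N - (N - 1 - t) = t + 1 := by omega
  rw [e1]
  have hc : (m.set 0 0 (t + 1)).cmds [Cmd.K] = (m.set 0 0 (t + 1)).set 0 1 (t + 1) := by
    simp [AMem.cmds, AMem.cmd, AMem.set]
  rw [hc]
  have hch : Chain N ((m.set 0 0 (t + 1)).set 0 1 (t + 1)) := by
    refine ⟨?_, ?_⟩
    · simp [AMem.set, hm.top]
    · intro v hv1 hv2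
      have : v ≠ 0 := by omega
      simp only [AMem.set]
      rw [Function.update_of_ne this, Function.update_of_ne this]
      exact hm.two v hv1 hv2
  rw [walk_N N _ hch _ (by omega)]
  have e2 : N - (N - 1 - s) = s + 1 := by omega
  rw [e2]
  cases b <;> simp [AMem.cmds, AMem.cmd, AMem.set, setB, let2]

/-- Effect of an assignment on single pointers. -/
theorem assign_spec (N s : ℕ) (b : Bool) (t : ℕ) (m : AMem) (hm : Chain N m) (hs : s < N)
    (ht : t < N) :
    Chain N (m.cmds (assign N s b t)) ∧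
    (m.cmds (assign N s b t)).ptr 0 0 = s + 1 ∧
    (m.cmds (assign N s b t)).ptr 0 1 = t + 1 ∧
    ∀ s' b', (m.cmds (assign N s b t)).ptr (s' + 1) (let2 b') =
      if s' = s ∧ b' = b then t + 1 else m.ptr (s' + 1) (let2 b') := by
  rw [cmds_assign N s b t m hm hs ht]
  refine ⟨⟨?_, ?_⟩, ?_, ?_, ?_⟩
  · simp [AMem.set, hm.top]
  · intro v hv1 hv2
    have hv : v ≠ 0 := by omega
    by_cases h : v = s + 1
    · subst h
      have h2 : (2 : Fin 3) ≠ let2 b := by cases b <;> decide
      simp only [AMem.set, Function.update_self]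
      rw [Function.update_of_ne h2, Function.update_of_ne hv, Function.update_of_ne hv,
        Function.update_of_ne hv]
      exact hm.two _ hv1 hv2
    · simp only [AMem.set]
      rw [Function.update_of_ne h, Function.update_of_ne hv, Function.update_of_ne hv,
        Function.update_of_ne hv]
      exact hm.two _ hv1 hv2
  · have : (0 : ℕ) ≠ s + 1 := by omega
    simp [AMem.set]
  · simp [AMem.set]
  · intro s' b'
    by_cases h : s' = s
    · subst h
      by_cases hb : b' = b
      · subst hb
        simp [AMem.set]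
      · have h2 : let2 b' ≠ let2 b := by
          cases b <;> cases b' <;> first | decide | (exact absurd rfl hb)
        simp only [AMem.set, Function.update_self]
        rw [Function.update_of_ne h2]
        simp [hb]
    · have h' : s' + 1 ≠ s + 1 := by omega
      simp only [AMem.set]
      rw [Function.update_of_ne h']
      simp [h]

/-- A list of assignments. -/
theorem assigns_spec (N : ℕ) (δ : ℕ → Bool → ℕ) (hδ : ∀ s < N, ∀ b, δ s b < N)
    (l : List (ℕ × Bool)) (hl : ∀ p ∈ l, p.1 < N) (hne : l ≠ []) (m : AMem) (hm : Chain N m) :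
    Chain N (m.cmds (l.flatMap fun p => assign N p.1 p.2 (δ p.1 p.2))) ∧
    (∃ s < N, (m.cmds (l.flatMap fun p => assign N p.1 p.2 (δ p.1 p.2))).ptr 0 0 = s + 1) ∧
    (∃ s < N, (m.cmds (l.flatMap fun p => assign N p.1 p.2 (δ p.1 p.2))).ptr 0 1 = s + 1) ∧
    ∀ s' b', (m.cmds (l.flatMap fun p => assign N p.1 p.2 (δ p.1 p.2))).ptr (s' + 1) (let2 b') =
      if (s', b') ∈ l then δ s' b' + 1 else m.ptr (s' + 1) (let2 b') := by
  induction l generalizing m with
  | nil => exact absurd rfl hne
  | cons p l ih =>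
    have hp := hl p (by simp)
    obtain ⟨a1, a2, a3, a4⟩ := assign_spec N p.1 p.2 (δ p.1 p.2) m hm hp (hδ _ hp _)
    rw [List.flatMap_cons, cmds_append]
    by_cases hl0 : l = []
    · subst hl0
      simp only [List.flatMap_nil, cmds_nil]
      refine ⟨a1, ⟨_, hp, a2⟩, ⟨_, hδ _ hp _, a3⟩, ?_⟩
      intro s' b'
      rw [a4]
      have : (s', b') ∈ [p] ↔ s' = p.1 ∧ b' = p.2 := by
        rw [List.mem_singleton, Prod.ext_iff]
      by_cases h : s' = p.1 ∧ b' = p.2
      · rw [if_pos h, if_pos (this.2 h), h.1, h.2]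
      · rw [if_neg h, if_neg (fun h' => h (this.1 h'))]
    · obtain ⟨b1, b2, b3, b4⟩ := ih (fun q hq => hl q (by simp [hq])) hl0 _ a1
      refine ⟨b1, b2, b3, ?_⟩
      intro s' b'
      rw [b4]
      by_cases h : (s', b') ∈ l
      · rw [if_pos h, if_pos (by simp [h])]
      · rw [if_neg h, a4]
        by_cases h' : s' = p.1 ∧ b' = p.2
        · have : (s', b') = p := Prod.ext h'.1 h'.2
          rw [if_pos h', if_pos (by simp [this]), h'.1, h'.2]
        · have : ¬ (s', b') ∈ p :: l := by
            rw [List.mem_cons]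
            rintro (h1 | h1)
            · exact h' (Prod.ext_iff.1 h1)
            · exact h h1
          rw [if_neg h', if_neg this]

/-- Building a structure on the vertices `1, …, N`. -/
theorem build_nat (N : ℕ) (hN : 0 < N) (δ : ℕ → Bool → ℕ) (hδ : ∀ s < N, ∀ b, δ s b < N) :
    ∃ u : List Cmd, u.length ≤ N + 2 * N * (2 * N + 4) ∧
      (AMem.init.cmds u).ptr 0 2 = N ∧
      (∃ s < N, (AMem.init.cmds u).ptr 0 0 = s + 1) ∧
      (∃ s < N, (AMem.init.cmds u).ptr 0 1 = s + 1) ∧
      ∀ s < N, ∀ b, (AMem.init.cmds u).ptr (s + 1) (let2 b) = δ s b + 1 := by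
  obtain ⟨h1, h2, h3⟩ := chain_A N
  have hch : Chain N (AMem.init.cmds (List.replicate N Cmd.A)) :=
    ⟨h2, fun t ht1 ht2 => h3 t ht1 ht2 2⟩
  set l : List (ℕ × Bool) := (List.range N).flatMap fun s => [(s, false), (s, true)] with hl
  have hmem : ∀ s b, (s, b) ∈ l ↔ s < N := by
    intro s b
    rw [hl, List.mem_flatMap]
    constructor
    · rintro ⟨a, ha, h⟩
      rw [List.mem_range] at ha
      simp at h
      rcases h with ⟨h, _⟩ | ⟨h, _⟩ <;> omega
    · intro h
      refine ⟨s, List.mem_range.2 h, ?_⟩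
      cases b <;> simp
  have hlen : l.length = 2 * N := by
    rw [hl, List.length_flatMap]
    simp [mul_comm]
  have hne : l ≠ [] := by
    intro h
    rw [h] at hlen
    simp at hlen
    omega
  obtain ⟨b1, b2, b3, b4⟩ := assigns_spec N δ hδ l (fun p hp => (hmem p.1 p.2).1 hp) hne _ hch
  refine ⟨List.replicate N Cmd.A ++ l.flatMap fun p => assign N p.1 p.2 (δ p.1 p.2), ?_, ?_, ?_,
    ?_, ?_⟩
  · rw [List.length_append, List.length_replicate, List.length_flatMap]
    have : (l.map fun p => (assign N p.1 p.2 (δ p.1 p.2)).length).sum ≤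
        l.length * (2 * N + 4) := by
      have := List.sum_le_card_nsmul (l.map fun p => (assign N p.1 p.2 (δ p.1 p.2)).length)
        (2 * N + 4) (by
          intro x hx
          rw [List.mem_map] at hx
          obtain ⟨p, _, rfl⟩ := hx
          exact length_assign _ _ _ _)
      simpa using this
    rw [hlen] at this
    omega
  · rw [cmds_append]; exact b1.top
  · rw [cmds_append]; exact b2
  · rw [cmds_append]; exact b3
  · intro s hs b
    rw [cmds_append, b4, if_pos ((hmem s b).2 hs)]

/-- Building a structure on a finite type. -/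
theorem build {S : Type} [Fintype S] (root : S) (δ : S → Bool → S) :
    ∃ (u : List Cmd) (id : S → ℕ) (x y : S),
      u.length ≤ Fintype.card S + 2 * Fintype.card S * (2 * Fintype.card S + 4) ∧
      Function.Injective id ∧ (∀ s, id s ≠ 0) ∧
      (AMem.init.cmds u).ptr 0 0 = id x ∧ (AMem.init.cmds u).ptr 0 1 = id y ∧
      (AMem.init.cmds u).ptr 0 2 = id root ∧
      (∀ s, (AMem.init.cmds u).ptr (id s) 0 = id (δ s false)) ∧
      (∀ s, (AMem.init.cmds u).ptr (id s) 1 = id (δ s true)) := by
  classical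
  set N := Fintype.card S with hNdef
  have hN : 0 < N := Fintype.card_pos_iff.2 ⟨root⟩
  let e₀ : S ≃ Fin N := Fintype.equivFin S
  let e : S ≃ Fin N := e₀.trans (Equiv.swap (e₀ root) ⟨N - 1, by omega⟩)
  have heroot : (e root : ℕ) = N - 1 := by
    simp [e]
  let δ' : ℕ → Bool → ℕ := fun s b => if h : s < N then (e (δ (e.symm ⟨s, h⟩) b) : ℕ) else 0
  have hδ' : ∀ s < N, ∀ b, δ' s b < N := by
    intro s hs b
    simp only [δ', dif_pos hs]
    exact (e _).2
  obtain ⟨u, hu, h2, ⟨x, hx, hx'⟩, ⟨y, hy, hy'⟩, h3⟩ := build_nat N hN δ' hδ'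
  have hδe : ∀ s b, δ' (e s) b = (e (δ s b) : ℕ) := by
    intro s b
    simp only [δ', dif_pos (e s).2, Fin.eta, Equiv.symm_apply_apply]
  refine ⟨u, fun s => (e s : ℕ) + 1, e.symm ⟨x, hx⟩, e.symm ⟨y, hy⟩, hu, ?_, ?_, ?_, ?_, ?_, ?_,
    ?_⟩
  · intro s t hst
    have : (e s : ℕ) = e t := by simpa using hst
    exact e.injective (Fin.ext this)
  · intro s; simp
  · simp [hx']
  · simp [hy']
  · rw [h2]
    simp only [heroot]
    omega
  · intro s
    have := h3 (e s) (e s).2 false
    rw [hδe] at this
    exact this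
  · intro s
    have := h3 (e s) (e s).2 true
    rw [hδe] at this
    exact this

/-! ## Abstract states -/

set_option linter.unusedSimpArgs false

/-- Abstract state: pointers, current and marked vertex. -/
structure ASt (S : Type) where
  d : S → Bool → S
  x : S
  y : S

/-- The effect of the commands `H, W0, W1, K, S0` on abstract states. -/
def ASt.cmd {S : Type} [DecidableEq S] (r : S) (a : ASt S) : Cmd → ASt S
  | .H => { a with x := r }
  | .W0 => { a with x := a.d a.x false }
  | .W1 => { a with x := a.d a.x true }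
  | .K => { a with y := a.x }
  | .S0 => { a with d := Function.update a.d a.x (Function.update (a.d a.x) false a.y) }
  | _ => a

/-- The commands for which `ASt.cmd` is meant. -/
def Ok (g : Cmd) : Prop := g = .H ∨ g = .W0 ∨ g = .W1 ∨ g = .K ∨ g = .S0

/-- The memory represents the abstract state. -/
structure Rep {S : Type} (r : S) (id : S → ℕ) (m : AMem) (a : ASt S) : Prop where
  x : m.ptr 0 0 = id a.x
  y : m.ptr 0 1 = id a.y
  r : m.ptr 0 2 = id r
  p0 : ∀ s, m.ptr (id s) 0 = id (a.d s false)
  p1 : ∀ s, m.ptr (id s) 1 = id (a.d s true)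

theorem Rep.cmd {S : Type} [DecidableEq S] {r : S} {id : S → ℕ} (hinj : Function.Injective id)
    (h0 : ∀ s, id s ≠ 0) {m : AMem} {a : ASt S} (h : Rep r id m a) (g : Cmd) (hg : Ok g) :
    Rep r id (m.cmd g) (a.cmd r g) := by
  have h0' : ∀ s, (0 : ℕ) ≠ id s := fun s => (h0 s).symm
  rcases hg with rfl | rfl | rfl | rfl | rfl
  · refine ⟨?_, ?_, ?_, ?_, ?_⟩ <;>
      simp [AMem.cmd, AMem.set, ASt.cmd, h.x, h.y, h.r, h.p0, h.p1, h0, Function.update_of_ne]
  · refine ⟨?_, ?_, ?_, ?_, ?_⟩ <;>
      simp [AMem.cmd, AMem.set, ASt.cmd, h.x, h.y, h.r, h.p0, h.p1, h0, Function.update_of_ne]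
  · refine ⟨?_, ?_, ?_, ?_, ?_⟩ <;>
      simp [AMem.cmd, AMem.set, ASt.cmd, h.x, h.y, h.r, h.p0, h.p1, h0, Function.update_of_ne]
  · refine ⟨?_, ?_, ?_, ?_, ?_⟩ <;>
      simp [AMem.cmd, AMem.set, ASt.cmd, h.x, h.y, h.r, h.p0, h.p1, h0, Function.update_of_ne]
  · refine ⟨?_, ?_, ?_, ?_, ?_⟩
    · simp only [AMem.cmd, AMem.set, ASt.cmd, h.x, h.y]
      rw [Function.update_of_ne (h0' _), h.x]
    · simp only [AMem.cmd, AMem.set, ASt.cmd, h.x, h.y]
      rw [Function.update_of_ne (h0' _), h.y]
    · simp only [AMem.cmd, AMem.set, ASt.cmd, h.x, h.y]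
      rw [Function.update_of_ne (h0' _), h.r]
    · intro s
      simp only [AMem.cmd, AMem.set, ASt.cmd, h.x, h.y]
      by_cases hs : s = a.x
      · subst hs
        simp
      · rw [Function.update_of_ne (fun h' => hs (hinj h')), Function.update_of_ne hs]
        exact h.p0 s
    · intro s
      simp only [AMem.cmd, AMem.set, ASt.cmd, h.x, h.y]
      by_cases hs : s = a.x
      · subst hs
        simp only [Function.update_self]
        rw [Function.update_of_ne (by decide), Function.update_of_ne (by decide)]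
        exact h.p1 _
      · rw [Function.update_of_ne (fun h' => hs (hinj h')), Function.update_of_ne hs]
        exact h.p1 s

theorem Rep.cmds {S : Type} [DecidableEq S] {r : S} {id : S → ℕ} (hinj : Function.Injective id)
    (h0 : ∀ s, id s ≠ 0) (w : List Cmd) (hw : ∀ g ∈ w, Ok g) {m : AMem} {a : ASt S}
    (h : Rep r id m a) : Rep r id (m.cmds w) (w.foldl (ASt.cmd r) a) := by
  induction w generalizing m a with
  | nil => exact h
  | cons g w ih =>
    rw [cmds_cons, List.foldl_cons]
    exact ih (fun g' hg' => hw g' (by simp [hg'])) (h.cmd hinj h0 g (hw g (by simp)))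

theorem Rep.label {S : Type} [DecidableEq S] {r : S} {id : S → ℕ} (hinj : Function.Injective id)
    {m : AMem} {a : ASt S} (h : Rep r id m a) : m.label = decide (a.d a.x false = a.x) := by
  unfold AMem.label
  rw [h.x, h.p0]
  by_cases hh : a.d a.x false = a.x
  · simp [hh]
  · have : id (a.d a.x false) ≠ id a.x := fun h' => hh (hinj h')
    simp [hh, this]

/-! ## The tree and the cells -/

/-- Nodes of the tree. -/
abbrev TNode (n : ℕ) := {u : List Bool // u.length ≤ n}

/-- Sorting the nodes by depth. -/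
def TNode.toVec {n : ℕ} (u : TNode n) : Σ i : Fin (n + 1), List.Vector Bool i :=
  ⟨⟨u.1.length, Nat.lt_succ_of_le u.2⟩, ⟨u.1, rfl⟩⟩

theorem TNode.toVec_injective {n : ℕ} : Function.Injective (TNode.toVec (n := n)) := by
  rintro ⟨u, hu⟩ ⟨v, hv⟩ h
  have h2 : (TNode.toVec ⟨u, hu⟩).2.toList = (TNode.toVec ⟨v, hv⟩).2.toList := by rw [h]
  exact Subtype.ext h2

noncomputable instance (n : ℕ) : Fintype (TNode n) := Fintype.ofInjective _ TNode.toVec_injective

theorem card_TNode (n : ℕ) : Fintype.card (TNode n) ≤ 2 ^ (n + 1) := by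
  refine (Fintype.card_le_of_injective _ (TNode.toVec_injective (n := n))).trans ?_
  rw [Fintype.card_sigma]
  simp only [card_vector, Fintype.card_bool]
  rw [Fin.sum_univ_eq_sum_range (fun i => 2 ^ i) (n + 1)]
  have := Nat.geomSum_lt (m := 2) (n := n + 1) le_rfl (s := Finset.range (n + 1))
    (fun k hk => Finset.mem_range.1 hk)
  exact this.le

section Tree

set_option linter.unusedSectionVars false

variable {J : Type} [Fintype J] [DecidableEq J] {P : J → Type} [∀ j, Fintype (P j)]
  [∀ j, DecidableEq (P j)] {n : ℕ}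

/-- The vertices of the structure. -/
abbrev Nd (P : J → Type) (n : ℕ) := TNode n ⊕ Σ j, P j

/-- The root. -/
def rt : Nd P n := Sum.inl ⟨[], Nat.zero_le _⟩

/-- The pointers: `c` gives the `false` pointers of the cells. -/
def dOf (target : (Fin n → Bool) → Σ j, P j) (nxt : (Σ j, P j) → Σ j, P j)
    (c : (Σ j, P j) → Nd P n) : Nd P n → Bool → Nd P n
  | Sum.inl u, b =>
    if h : u.1.length < n then Sum.inl ⟨u.1 ++ [b], by simpa using h⟩
    else if b = false then Sum.inr (target (fun i => (u.1[(i : ℕ)]?).getD false)) else rt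
  | Sum.inr q, false => c q
  | Sum.inr q, true => Sum.inr (nxt q)

/-- A state of the structure. -/
def mkS (target : (Fin n → Bool) → Σ j, P j) (nxt : (Σ j, P j) → Σ j, P j)
    (c : (Σ j, P j) → Nd P n) (x y : Nd P n) : ASt (Nd P n) :=
  ⟨dOf target nxt c, x, y⟩

variable (target : (Fin n → Bool) → Σ j, P j) (nxt : (Σ j, P j) → Σ j, P j)
  (c : (Σ j, P j) → Nd P n) (x y : Nd P n)

theorem mkS_H : (mkS target nxt c x y).cmd rt .H = mkS target nxt c rt y := rfl

theorem mkS_K : (mkS target nxt c x y).cmd rt .K = mkS target nxt c x x := rfl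

theorem mkS_W1 (q : Σ j, P j) : (mkS target nxt c (Sum.inr q) y).cmd rt .W1 =
    mkS target nxt c (Sum.inr (nxt q)) y := rfl

theorem mkS_S0 (q : Σ j, P j) : (mkS target nxt c (Sum.inr q) y).cmd rt .S0 =
    mkS target nxt (Function.update c q y) (Sum.inr q) y := by
  unfold mkS ASt.cmd
  simp only
  congr 1
  funext s b
  rcases s with u | q'
  · rw [Function.update_of_ne (by simp)]
    rfl
  · by_cases h : q' = q
    · subst h
      rw [Function.update_self]
      cases b
      · simp [dOf]
      · rw [Function.update_of_ne (by simp)]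
        rfl
    · rw [Function.update_of_ne (by simpa using h)]
      cases b
      · simp [dOf, Function.update_of_ne h]
      · rfl

theorem mkS_walk (u : List Bool) (hu : u.length < n) (b : Bool) :
    (mkS target nxt c (Sum.inl ⟨u, hu.le⟩) y).cmd rt (Cmd.walk b) =
    mkS target nxt c (Sum.inl ⟨u ++ [b], by simpa using hu⟩) y := by
  cases b <;> simp [mkS, ASt.cmd, Cmd.walk, dOf, hu]

theorem mkS_walks (w u : List Bool) (hu : (u ++ w).length ≤ n) :
    (w.map Cmd.walk).foldl (ASt.cmd rt)
      (mkS target nxt c (Sum.inl ⟨u, by rw [List.length_append] at hu; omega⟩) y) =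
    mkS target nxt c (Sum.inl ⟨u ++ w, hu⟩) y := by
  induction w generalizing u with
  | nil => simp
  | cons b w ih =>
    have hu' : u.length < n := by
      rw [List.length_append, List.length_cons] at hu; omega
    rw [List.map_cons, List.foldl_cons, mkS_walk target nxt c y u hu' b]
    have e : u ++ b :: w = (u ++ [b]) ++ w := by simp
    rw [ih (u ++ [b]) (by rw [← e]; exact hu)]
    simp only [e]

/-- Going to the cell of the leaf `p`. -/
def goto (p : Fin n → Bool) : List Cmd := (List.ofFn p).map Cmd.walk ++ [Cmd.W0]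

theorem mkS_goto (p : Fin n → Bool) :
    (goto p).foldl (ASt.cmd rt) (mkS target nxt c rt y) =
      mkS target nxt c (Sum.inr (target p)) y := by
  unfold goto
  rw [List.foldl_append]
  have := mkS_walks target nxt c y (List.ofFn p) [] (by simp)
  have h' : mkS target nxt c rt y = mkS target nxt c (Sum.inl ⟨[], by simp⟩) y := rfl
  rw [h', this]
  simp only [List.nil_append, List.foldl_cons, List.foldl_nil]
  simp only [mkS, ASt.cmd, dOf, List.length_ofFn, lt_irrefl, dif_neg, not_false_eq_true, if_true]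
  congr 3
  funext i
  simp

/-! ## Cyclic enumeration -/

/-- The element at cyclic distance `i` from `q`. -/
noncomputable def cyc {Q : Type} [Fintype Q] (q : Q) (i : ℕ) : Q :=
  (Fintype.equivFin Q).symm ⟨((Fintype.equivFin Q q : ℕ) + i) % Fintype.card Q,
    Nat.mod_lt _ (Fintype.card_pos_iff.2 ⟨q⟩)⟩

theorem cyc_zero {Q : Type} [Fintype Q] (q : Q) : cyc q 0 = q := by
  unfold cyc
  rw [Equiv.symm_apply_eq]
  apply Fin.ext
  simp [Nat.mod_eq_of_lt (Fintype.equivFin Q q).2]

theorem cyc_cyc {Q : Type} [Fintype Q] (q : Q) (i : ℕ) : cyc (cyc q i) 1 = cyc q (i + 1) := by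
  unfold cyc
  congr 2
  simp only [Equiv.apply_symm_apply]
  rw [Nat.mod_add_mod, add_assoc]

theorem cyc_inj {Q : Type} [Fintype Q] (q : Q) (i i' : ℕ) (hi : i < Fintype.card Q)
    (hi' : i' < Fintype.card Q) (h : cyc q i = cyc q i') : i = i' := by
  unfold cyc at h
  have h2 := (Fintype.equivFin Q).symm.injective h
  have h3 : ((Fintype.equivFin Q q : ℕ) + i) % Fintype.card Q =
      ((Fintype.equivFin Q q : ℕ) + i') % Fintype.card Q := congrArg Fin.val h2
  have h4 : i ≡ i' [MOD Fintype.card Q] := Nat.ModEq.add_left_cancel' _ h3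
  exact Nat.ModEq.eq_of_lt_of_lt h4 hi hi'

theorem cyc_surj {Q : Type} [Fintype Q] (q q' : Q) : ∃ i < Fintype.card Q, cyc q i = q' := by
  have hinj : Function.Injective (fun i : Fin (Fintype.card Q) => cyc q i) := by
    intro i i' h
    exact Fin.ext (cyc_inj q i i' i.2 i'.2 h)
  have hbij := (Fintype.bijective_iff_injective_and_card
    (fun i : Fin (Fintype.card Q) => cyc q i)).2 ⟨hinj, by simp⟩
  obtain ⟨i, hi⟩ := hbij.2 q'
  exact ⟨i, i.2, hi⟩

/-- The next cell of the same class. -/
noncomputable def nxtC (q : Σ j, P j) : Σ j, P j := ⟨q.1, cyc q.2 1⟩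

/-- Writing one bit. -/
def blk (b : Bool) : List Cmd := if b then [.K, .S0, .W1] else [.S0, .S0, .W1]

/-- Writing all bits of a class, starting at the cell `q`. -/
noncomputable def pass {j : J} (q : P j) (X : P j → Bool) (k : ℕ) : List Cmd :=
  (List.range k).flatMap fun i => blk (X (cyc q i))

theorem pass_spec {j : J} (q : P j) (X : P j → Bool) (k : ℕ) (hk : k ≤ Fintype.card (P j)) :
    ∃ (c' : (Σ j, P j) → Nd P n) (y' : Nd P n),
      (pass q X k).foldl (ASt.cmd rt) (mkS target nxtC c (Sum.inr ⟨j, q⟩) rt) =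
        mkS target nxtC c' (Sum.inr ⟨j, cyc q k⟩) y' ∧
      (∀ r : Σ j, P j, r.1 ≠ j → c' r = c r) ∧
      (∀ i < k, (c' ⟨j, cyc q i⟩ = Sum.inr ⟨j, cyc q i⟩ ↔ X (cyc q i) = true)) ∧
      (y' = rt ∨ ∃ i < k, y' = Sum.inr ⟨j, cyc q i⟩) := by
  induction k with
  | zero =>
    refine ⟨c, rt, ?_, fun _ _ => rfl, ?_, Or.inl rfl⟩
    · simp [pass, cyc_zero]
    · intro i hi; omega
  | succ k ih =>
    obtain ⟨c', y', h1, h2, h3, h4⟩ := ih (by omega)
    have hp : pass q X (k + 1) = pass q X k ++ blk (X (cyc q k)) := by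
      simp [pass, List.range_succ]
    have hnx : nxtC (⟨j, cyc q k⟩ : Σ j, P j) = ⟨j, cyc q (k + 1)⟩ := by
      simp [nxtC, cyc_cyc]
    have hne : ∀ i < k, (⟨j, cyc q i⟩ : Σ j, P j) ≠ ⟨j, cyc q k⟩ := by
      intro i hi h
      have := cyc_inj q i k (by omega) (by omega) (eq_of_heq (Sigma.mk.inj h).2)
      omega
    rw [hp, List.foldl_append, h1]
    cases hX : X (cyc q k) with
    | true =>
      refine ⟨Function.update c' ⟨j, cyc q k⟩ (Sum.inr ⟨j, cyc q k⟩), Sum.inr ⟨j, cyc q k⟩,
        ?_, ?_, ?_, Or.inr ⟨k, by omega, rfl⟩⟩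
      · simp only [blk, if_true, List.foldl_cons, List.foldl_nil, mkS_K, mkS_S0, mkS_W1, hnx]
      · intro r hr
        rw [Function.update_of_ne (by rintro rfl; exact hr rfl)]
        exact h2 r hr
      · intro i hi
        by_cases hik : i = k
        · subst hik
          simp [hX]
        · rw [Function.update_of_ne (hne i (by omega))]
          exact h3 i (by omega)
    | false =>
      refine ⟨Function.update c' ⟨j, cyc q k⟩ y', y', ?_, ?_, ?_, ?_⟩
      · simp only [blk, Bool.false_eq_true, if_false, List.foldl_cons, List.foldl_nil, mkS_S0,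
          mkS_W1, hnx, Function.update_idem]
      · intro r hr
        rw [Function.update_of_ne (by rintro rfl; exact hr rfl)]
        exact h2 r hr
      · intro i hi
        by_cases hik : i = k
        · subst hik
          rw [Function.update_self, hX]
          refine ⟨fun h => ?_, fun h => by simp at h⟩
          rcases h4 with h4 | ⟨i', hi', h4⟩
          · rw [h4] at h; simp [rt] at h
          · rw [h4] at h
            exact absurd (Sum.inr.inj h) (hne i' hi')
        · rw [Function.update_of_ne (hne i (by omega))]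
          exact h3 i (by omega)
      · rcases h4 with h4 | ⟨i', hi', h4⟩
        · exact Or.inl h4
        · exact Or.inr ⟨i', by omega, h4⟩

/-- The word that writes the bits `X` into the class of the cell `⟨j, q⟩ = target p`. -/
noncomputable def Uw (p : Fin n → Bool) {j : J} (q : P j) (X : P j → Bool) : List Cmd :=
  [Cmd.H, Cmd.K] ++ (goto p ++ pass q X (Fintype.card (P j)))

theorem Uw_spec (p : Fin n → Bool) {j : J} (q : P j) (X : P j → Bool)
    (hp : target p = ⟨j, q⟩) :
    ∃ (c' : (Σ j, P j) → Nd P n) (x' y' : Nd P n),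
      (Uw p q X).foldl (ASt.cmd rt) (mkS target nxtC c x y) = mkS target nxtC c' x' y' ∧
      (∀ r : Σ j, P j, r.1 ≠ j → c' r = c r) ∧
      ∀ q' : P j, (c' ⟨j, q'⟩ = Sum.inr ⟨j, q'⟩ ↔ X q' = true) := by
  obtain ⟨c', y', h1, h2, h3, _⟩ := pass_spec target c q X (Fintype.card (P j)) le_rfl
  refine ⟨c', Sum.inr ⟨j, cyc q (Fintype.card (P j))⟩, y', ?_, h2, ?_⟩
  · unfold Uw
    rw [List.foldl_append, List.foldl_append]
    simp only [List.foldl_cons, List.foldl_nil, mkS_H, mkS_K]
    rw [mkS_goto, hp, h1]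
  · intro q'
    obtain ⟨i, hi, hi'⟩ := cyc_surj q q'
    have := h3 i hi
    rw [hi'] at this
    exact this

theorem length_Uw (p : Fin n → Bool) {j : J} (q : P j) (X : P j → Bool) :
    (Uw p q X).length = n + 3 + 3 * Fintype.card (P j) := by
  have h1 : ∀ b, (blk b).length = 3 := by intro b; cases b <;> rfl
  have h2 : (pass q X (Fintype.card (P j))).length = 3 * Fintype.card (P j) := by
    unfold pass
    rw [List.length_flatMap]
    simp [h1, mul_comm]
  simp only [Uw, goto, List.length_append, List.length_map, List.length_ofFn, h2,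
    List.length_cons, List.length_nil]
  omega

theorem ok_Uw (p : Fin n → Bool) {j : J} (q : P j) (X : P j → Bool) :
    ∀ g ∈ Uw p q X, Ok g := by
  have hg : ∀ g ∈ goto p, Ok g := by
    intro g hg
    unfold goto at hg
    rw [List.mem_append, List.mem_map] at hg
    rcases hg with ⟨b, _, rfl⟩ | hg
    · cases b <;> simp [Ok, Cmd.walk]
    · rw [List.mem_singleton] at hg; subst hg; simp [Ok]
  have hb : ∀ b, ∀ g ∈ blk b, Ok g := by
    intro b g hg
    cases b <;> simp [blk] at hg
    · rcases hg with rfl | rfl <;> simp [Ok]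
    · rcases hg with rfl | rfl | rfl <;> simp [Ok]
  intro g h
  unfold Uw at h
  rw [List.mem_append, List.mem_append] at h
  rcases h with h | h | h
  · simp at h
    rcases h with rfl | rfl <;> simp [Ok]
  · exact hg g h
  · unfold pass at h
    rw [List.mem_flatMap] at h
    obtain ⟨i, _, h⟩ := h
    exact hb _ g h

end Tree

theorem ok_query {n : ℕ} (p : Fin n → Bool) : ∀ g ∈ query p, Ok g := by
  intro g hg
  unfold query at hg
  rw [List.mem_cons, List.mem_append, List.mem_map] at hg
  rcases hg with rfl | ⟨b, _, rfl⟩ | hg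
  · simp [Ok]
  · cases b <;> simp [Ok, Cmd.walk]
  · rw [List.mem_singleton] at hg; subst hg; simp [Ok]

theorem exists_words {J : Type} [Fintype J] [DecidableEq J] (P : J → Type)
    [∀ j, Fintype (P j)] [∀ j, DecidableEq (P j)] (n : ℕ)
    (target : (Fin n → Bool) → Σ j, P j) (hsurj : ∀ j, ∃ p, (target p).1 = j) :
    ∃ (u₀ : List Cmd) (U : ∀ j, (P j → Bool) → List Cmd),
      u₀.length ≤ 64 * (2 ^ (n + 1) + ∑ j, Fintype.card (P j)) ^ 2 ∧
      (∀ j X, (U j X).length ≤ n + 4 + 3 * Fintype.card (P j)) ∧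
      ∀ (X : ∀ j, P j → Bool) (L : List J) (p : Fin n → Bool), (target p).1 ∈ L →
        lastOut (u₀ ++ L.flatMap (fun j => U j (X j)) ++ query p) =
          X (target p).1 (target p).2 := by
  classical
  have hsurj' : ∀ j, ∃ (p : Fin n → Bool) (q : P j), target p = ⟨j, q⟩ := by
    intro j
    obtain ⟨p, rfl⟩ := hsurj j
    exact ⟨p, (target p).2, rfl⟩
  choose lf ql hlf using hsurj'
  obtain ⟨u, id, x, y, hu, hinj, h0, h00, h01, h02, hp0, hp1⟩ :=
    build (S := Nd P n) rt (dOf target nxtC fun _ => rt)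
  refine ⟨u, fun j X => Uw (lf j) (ql j) X, ?_, ?_, ?_⟩
  · refine hu.trans ?_
    have hc : Fintype.card (Nd P n) ≤ 2 ^ (n + 1) + ∑ j, Fintype.card (P j) := by
      rw [Fintype.card_sum, Fintype.card_sigma]
      exact Nat.add_le_add_right (card_TNode n) _
    have hpos : 0 < Fintype.card (Nd P n) := Fintype.card_pos_iff.2 ⟨rt⟩
    set N := Fintype.card (Nd P n)
    set M := 2 ^ (n + 1) + ∑ j, Fintype.card (P j)
    nlinarith
  · intro j X
    rw [length_Uw]
    omega
  · intro X L p hpL
    have hrep0 : Rep rt id (AMem.init.cmds u) (mkS target nxtC (fun _ => rt) x y) :=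
      ⟨h00, h01, h02, hp0, hp1⟩
    have key : ∀ (L : List J) (c : (Σ j, P j) → Nd P n) (x y : Nd P n),
        ∃ (c' : (Σ j, P j) → Nd P n) (x' y' : Nd P n),
          (L.flatMap fun j => Uw (lf j) (ql j) (X j)).foldl (ASt.cmd rt)
            (mkS target nxtC c x y) = mkS target nxtC c' x' y' ∧
          ∀ j, (j ∈ L ∨ ∀ q' : P j, (c ⟨j, q'⟩ = Sum.inr ⟨j, q'⟩ ↔ X j q' = true)) →
            ∀ q' : P j, (c' ⟨j, q'⟩ = Sum.inr ⟨j, q'⟩ ↔ X j q' = true) := by
      intro L
      induction L with
      | nil =>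
        intro c x y
        refine ⟨c, x, y, by simp, ?_⟩
        intro j hj
        rcases hj with hj | hj
        · simp at hj
        · exact hj
      | cons j₀ L ih =>
        intro c x y
        obtain ⟨c₁, x₁, y₁, e₁, e₂, e₃⟩ :=
          Uw_spec target c x y (lf j₀) (ql j₀) (X j₀) (hlf j₀)
        obtain ⟨c₂, x₂, y₂, f₁, f₂⟩ := ih c₁ x₁ y₁
        refine ⟨c₂, x₂, y₂, ?_, ?_⟩
        · rw [List.flatMap_cons, List.foldl_append, e₁, f₁]
        · intro j hj
          apply f₂
          by_cases hjj : j = j₀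
          · subst hjj
            exact Or.inr e₃
          · rcases hj with hj | hj
            · rw [List.mem_cons] at hj
              rcases hj with hj | hj
              · exact absurd hj hjj
              · exact Or.inl hj
            · right
              intro q'
              rw [e₂ ⟨j, q'⟩ hjj]
              exact hj q'
    obtain ⟨c', x', y', k1, k2⟩ := key L (fun _ => rt) x y
    have hokL : ∀ g ∈ (L.flatMap fun j => Uw (lf j) (ql j) (X j)), Ok g := by
      intro g hg
      rw [List.mem_flatMap] at hg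
      obtain ⟨j, _, hg⟩ := hg
      exact ok_Uw _ _ _ g hg
    have hrep1 := Rep.cmds hinj h0 _ hokL hrep0
    rw [k1] at hrep1
    have hrep2 := Rep.cmds hinj h0 _ (ok_query p) hrep1
    have hq : (query p).foldl (ASt.cmd rt) (mkS target nxtC c' x' y') =
        mkS target nxtC c' (Sum.inr (target p)) y' := by
      unfold query
      rw [List.foldl_cons, mkS_H]
      exact mkS_goto target nxtC c' y' p
    rw [hq] at hrep2
    unfold lastOut
    rw [cmds_append, cmds_append]
    rw [hrep2.label hinj]
    have hk := k2 (target p).1 (Or.inl hpL) (target p).2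
    have hd : (mkS target nxtC c' (Sum.inr (target p)) y').d
        (mkS target nxtC c' (Sum.inr (target p)) y').x false = c' (target p) := rfl
    rw [hd]
    change decide (c' (target p) = Sum.inr (target p)) = _
    have hk' : (c' (target p) = Sum.inr (target p)) ↔ X (target p).1 (target p).2 = true := hk
    by_cases hX : X (target p).1 (target p).2 = true
    · rw [hX]; simpa using hk'.2 hX
    · have : ¬ c' (target p) = Sum.inr (target p) := fun h => hX (hk'.1 h)
      rw [Bool.not_eq_true] at hX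
      rw [hX]; simpa using this

end Pool.Agent.Helper19.KU
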